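import Pool.Agent.helper68.QZ.Spec

/-!
# Row `qz:TS`
-/

set_option autoImplicit false

namespace Pool.Agent.QZ

open N1f72dd46 Filter MeasureTheory Complex Metric Pool.Agent.helper6.LD
open scoped ComplexConjugate

/-- `D log (2T) ≤ T ^ δ` for large `T` -/
theorem TS_log (D δ : ℝ) (hD : 0 < D) (hδ : 0 < δ) : ∃ T0 : ℝ, 1 ≤ T0 ∧ ∀ T : ℝ, T0 ≤ T →
    D * Real.log (2 * T) ≤ T ^ δ := by
  have h1 : Tendsto (fun T : ℝ => T ^ (δ / 2)) atTop atTop := tendsto_rpow_atTop (by positivity)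
  have h2 := (h1.eventually_ge_atTop (D * (2 ^ (δ / 2) / (δ / 2)))).and (eventually_ge_atTop 1)
  obtain ⟨T0, hT0⟩ := Filter.eventually_atTop.1 h2
  refine ⟨max T0 1, le_max_right _ _, fun T hT => ?_⟩
  obtain ⟨h3, h4⟩ := hT0 T ((le_max_left _ _).trans hT)
  have hTp : 0 < T := by linarith
  have h5 := Real.log_le_rpow_div (x := 2 * T) (ε := δ / 2) (by positivity) (by positivity)
  have h6 : (2 * T) ^ (δ / 2) = 2 ^ (δ / 2) * T ^ (δ / 2) :=
    Real.mul_rpow (by norm_num) hTp.le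
  have h7 : T ^ δ = T ^ (δ / 2) * T ^ (δ / 2) := by
    rw [← Real.rpow_add hTp]; congr 1; ring
  have h8 : 0 ≤ T ^ (δ / 2) := by positivity
  calc D * Real.log (2 * T) ≤ D * ((2 * T) ^ (δ / 2) / (δ / 2)) :=
        mul_le_mul_of_nonneg_left h5 hD.le
    _ = (D * (2 ^ (δ / 2) / (δ / 2))) * T ^ (δ / 2) := by rw [h6]; ring
    _ ≤ T ^ (δ / 2) * T ^ (δ / 2) := mul_le_mul_of_nonneg_right h3 h8
    _ = T ^ δ := h7.symm

theorem TS : TS_stmt := by
  intro β z ε hβ hz hz1 hε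
  refine ⟨max 2 (4 * β / ε), le_max_left _ _, ?_⟩
  intro lam C hlam hC
  have hl2 : 2 ≤ lam := (le_max_left _ _).trans hlam
  have hl4 : 4 * β / ε ≤ lam := (le_max_right _ _).trans hlam
  have hl0 : 0 < lam := by linarith
  have hlz : 0 < lam + z := by linarith
  obtain ⟨x, hx⟩ : ∃ x : ℝ, x = z / (lam + z) := ⟨_, rfl⟩
  have hx0 : 0 < x := by rw [hx]; positivity
  have hxl : x * (lam + z) = z := by rw [hx]; field_simp
  have hβx : β * x ≤ ε / 4 := by
    have h1 : 4 * β ≤ lam * ε := (div_le_iff₀ hε).1 hl4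
    have h2 : x * lam ≤ 1 := by nlinarith
    have h3 : 4 * β * x ≤ lam * ε * x := mul_le_mul_of_nonneg_right h1 hx0.le
    nlinarith
  obtain ⟨μ, hμ⟩ : ∃ μ : ℝ, μ = min (1 / 2) (ε / (4 * β)) := ⟨_, rfl⟩
  have hμ0 : 0 < μ := by rw [hμ]; positivity
  have hμ1 : μ ≤ 1 / 2 := by rw [hμ]; exact min_le_left _ _
  have hβμ : β * μ ≤ ε / 4 := by
    have : μ ≤ ε / (4 * β) := by rw [hμ]; exact min_le_right _ _
    calc β * μ ≤ β * (ε / (4 * β)) := mul_le_mul_of_nonneg_left this hβ.le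
      _ = ε / 4 := by field_simp
  have hq : lam / (lam + z) ≤ Real.exp (-x) := by
    have h1 : lam / (lam + z) = -x + 1 := by
      rw [hx]; field_simp; ring
    rw [h1]
    exact Real.add_one_le_exp _
  have hq0 : 0 < lam / (lam + z) := by positivity
  obtain ⟨M, hM⟩ : ∃ M : ℝ, M = 2 * Real.exp (μ * x) / (μ * x) ^ 2 := ⟨_, rfl⟩
  have hμx : 0 < μ * x := by positivity
  have hM0 : 0 < M := by rw [hM]; positivity
  have hsq : ∀ n : ℕ, ((n : ℝ) + 1) ^ 2 ≤ M * Real.exp (μ * x * n) := by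
    intro n
    have h1 := Real.pow_div_factorial_le_exp (μ * x * (n + 1)) (by positivity) 2
    have h2 : (μ * x * ((n : ℝ) + 1)) ^ 2 ≤ 2 * Real.exp (μ * x * (n + 1)) := by
      have : ((2 : ℕ).factorial : ℝ) = 2 := by norm_num [Nat.factorial]
      rw [this] at h1
      linarith
    rw [hM]
    have h3 : Real.exp (μ * x * (n + 1)) = Real.exp (μ * x) * Real.exp (μ * x * n) := by
      rw [← Real.exp_add]; congr 1; ring
    rw [h3, mul_pow] at h2
    rw [div_mul_eq_mul_div, le_div_iff₀ (by positivity)]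
    linarith
  obtain ⟨r, hr⟩ : ∃ r : ℝ, r = Real.exp (-((1 - μ) * x)) := ⟨_, rfl⟩
  have h1μ : 0 < (1 - μ) * x := by
    have : 0 < 1 - μ := by linarith
    positivity
  have hr0 : 0 < r := by rw [hr]; exact Real.exp_pos _
  have hr1 : r < 1 := by rw [hr]; exact Real.exp_lt_one_iff.2 (by linarith)
  have hterm : ∀ n : ℕ, ((n : ℝ) + 1) ^ 2 * (lam / (lam + z)) ^ n ≤ M * r ^ n := by
    intro n
    have h1 : (lam / (lam + z)) ^ n ≤ Real.exp (-x) ^ n := pow_le_pow_left₀ hq0.le hq n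
    have h2 : Real.exp (-x) ^ n = Real.exp (n * (-x)) := (Real.exp_nat_mul _ _).symm
    have h3 : r ^ n = Real.exp (n * (-((1 - μ) * x))) := by
      rw [hr]; exact (Real.exp_nat_mul _ _).symm
    calc ((n : ℝ) + 1) ^ 2 * (lam / (lam + z)) ^ n
        ≤ (M * Real.exp (μ * x * n)) * Real.exp (n * (-x)) := by
          apply mul_le_mul (hsq n) (h1.trans h2.le) (by positivity) (by positivity)
      _ = M * r ^ n := by
          rw [h3, mul_assoc, ← Real.exp_add]; congr 2; ring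
  have hlow : β * z - ε / 2 ≤ (1 - μ) * x * (lam * β) := by
    have e1 : x * lam = z - z * x := by linarith
    have e2 : (1 - μ) * x * (lam * β) = (1 - μ) * (z - z * x) * β := by
      rw [← e1]; ring
    rw [e2]
    have e3 : (1 - μ) * (z - z * x) * β = β * z - z * (β * μ) - z * (β * x) + μ * z * (β * x) := by
      ring
    rw [e3]
    have e4 : z * (β * μ) ≤ 1 * (ε / 4) := mul_le_mul hz1 hβμ (by positivity) (by norm_num)
    have e5 : z * (β * x) ≤ 1 * (ε / 4) := mul_le_mul hz1 hβx (by positivity) (by norm_num)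
    have e6 : 0 ≤ μ * z * (β * x) := by positivity
    linarith
  have hr1' : 0 < 1 - r := by linarith
  obtain ⟨T0, hT01, hT0⟩ := TS_log (C * M / (1 - r)) (ε / 2) (by positivity) (by positivity)
  refine ⟨T0, fun T hT N hN => ?_⟩
  have hT1 : 1 ≤ T := hT01.trans hT
  have hTp : 0 < T := by linarith
  have hlog : 0 ≤ Real.log (2 * T) := Real.log_nonneg (by linarith)
  have hbound : ∀ k : ℕ, C * Real.log (2 * T) * ((k + N : ℕ) + 1 : ℝ) ^ 2 *
      (lam / (lam + z)) ^ (k + N) ≤ C * Real.log (2 * T) * M * r ^ N * r ^ k := by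
    intro k
    have := mul_le_mul_of_nonneg_left (hterm (k + N)) (mul_nonneg hC.le hlog)
    calc C * Real.log (2 * T) * ((k + N : ℕ) + 1 : ℝ) ^ 2 * (lam / (lam + z)) ^ (k + N)
        = C * Real.log (2 * T) * (((k + N : ℕ) + 1 : ℝ) ^ 2 * (lam / (lam + z)) ^ (k + N)) := by
          ring
      _ ≤ C * Real.log (2 * T) * (M * r ^ (k + N)) := this
      _ = C * Real.log (2 * T) * M * r ^ N * r ^ k := by rw [pow_add]; ring
  have hgeo : Summable (fun k : ℕ => C * Real.log (2 * T) * M * r ^ N * r ^ k) :=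
    (summable_geometric_of_lt_one hr0.le hr1).mul_left _
  have hsum : Summable (fun k : ℕ => C * Real.log (2 * T) * ((k + N : ℕ) + 1 : ℝ) ^ 2 *
      (lam / (lam + z)) ^ (k + N)) :=
    Summable.of_nonneg_of_le (fun k => by positivity) hbound hgeo
  refine ⟨hsum, ?_⟩
  have hrN : r ^ N ≤ T ^ (-(β * z) + ε / 2) := by
    have h1 : r ^ N = Real.exp (N * (-((1 - μ) * x))) := by
      rw [hr]; exact (Real.exp_nat_mul _ _).symm
    rw [h1, Real.rpow_def_of_pos hTp]
    apply Real.exp_le_exp.2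
    have hlT : 0 ≤ Real.log T := Real.log_nonneg hT1
    have h2 : (1 - μ) * x * (lam * β * Real.log T) ≤ (1 - μ) * x * N :=
      mul_le_mul_of_nonneg_left hN h1μ.le
    have h3 : (β * z - ε / 2) * Real.log T ≤ (1 - μ) * x * (lam * β) * Real.log T :=
      mul_le_mul_of_nonneg_right hlow hlT
    nlinarith
  calc ∑' k : ℕ, C * Real.log (2 * T) * ((k + N : ℕ) + 1 : ℝ) ^ 2 * (lam / (lam + z)) ^ (k + N)
      ≤ ∑' k : ℕ, C * Real.log (2 * T) * M * r ^ N * r ^ k := hsum.tsum_le_tsum hbound hgeo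
    _ = C * Real.log (2 * T) * M * r ^ N * (1 - r)⁻¹ := by
        rw [tsum_mul_left, tsum_geometric_of_lt_one hr0.le hr1]
    _ = (C * M / (1 - r) * Real.log (2 * T)) * r ^ N := by
        field_simp
    _ ≤ T ^ (ε / 2) * T ^ (-(β * z) + ε / 2) := by
        apply mul_le_mul (hT0 T hT) hrN (by positivity) (by positivity)
    _ = T ^ (-(β * z) + ε) := by
        rw [← Real.rpow_add hTp]; congr 1; ring

end Pool.Agent.QZ
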